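import Pool.Agent.Helper38.EC.Goals

/-!
# MP_ecc237_nt, Part I, packet VPA: the vertical primitive
-/

set_option autoImplicit false

open MeasureTheory Filter Topology Set Complex

namespace Pool.Agent.Helper22.EC.I_VPA

open EC237 EC237.PI

theorem down_mem {t : ℂ} (ht : t ∈ Qd) {η : ℝ} (hη : 0 ≤ η) : t - I * η ∈ Qd := by
  obtain ⟨h1, h2, h3⟩ := ht
  have hre : (t - I * η).re = t.re := by simp
  have him : (t - I * η).im = t.im - η := by simp
  refine ⟨by rw [hre]; exact h1, by rw [him]; linarith, fun h => h3 ?_⟩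
  have e1 : (t - I * η).re = 0 := by rw [h]; rfl
  have e2 : (t - I * η).im = 0 := by rw [h]; rfl
  rw [hre] at e1
  rw [him] at e2
  apply Complex.ext
  · rw [e1]; rfl
  · have : t.im = 0 := by linarith
    rw [this]; rfl

theorem down_norm {t : ℂ} (ht : t ∈ Qd) {η : ℝ} (hη : 0 ≤ η) : η ≤ ‖t - I * η‖ := by
  have h2 := ht.2.1
  have him : (t - I * η).im = t.im - η := by simp
  have h := Complex.abs_im_le_norm (t - I * η)
  rw [him, abs_of_nonpos (by linarith)] at h
  linarith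

theorem cont_down {f : ℂ → ℂ} (hf : VAdm f) {t : ℂ} (ht : t ∈ Qd) :
    ContinuousOn (fun η : ℝ => f (t - I * η)) (Ici 0) := by
  refine hf.1.comp (f := fun η : ℝ => t - I * (η : ℂ)) ?_ fun η hη => down_mem ht hη
  exact (continuous_const.sub (continuous_const.mul Complex.continuous_ofReal)).continuousOn

theorem part1 {f : ℂ → ℂ} (hf : VAdm f) {t : ℂ} (ht : t ∈ Qd) :
    IntegrableOn (fun η : ℝ => f (t - I * η)) (Ioi 0) := by
  obtain ⟨C, hC⟩ := hf.2.2 t.re
  have hsplit : Ioi (0:ℝ) = Ioc 0 1 ∪ Ioi 1 := (Ioc_union_Ioi_eq_Ioi zero_le_one).symm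
  rw [hsplit]
  refine IntegrableOn.union ?_ ?_
  · refine IntegrableOn.mono_set (t := Icc 0 1) ?_ Ioc_subset_Icc_self
    exact ((cont_down hf ht).mono Icc_subset_Ici_self).integrableOn_compact isCompact_Icc
  · have h1 : IntegrableOn (fun η : ℝ => |C| * η ^ (-2 : ℝ)) (Ioi 1) :=
      (integrableOn_Ioi_rpow_of_lt (by norm_num) zero_lt_one).const_mul _
    refine Integrable.mono' h1 ?_ ?_
    · have hsub : Ioi (1:ℝ) ⊆ Ici 0 := fun η hη => by
        rw [mem_Ioi] at hη
        rw [mem_Ici]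
        linarith
      exact ((cont_down hf ht).mono hsub).aestronglyMeasurable measurableSet_Ioi
    · refine (ae_restrict_iff' measurableSet_Ioi).2 (Eventually.of_forall fun η hη => ?_)
      have hη1 : (1:ℝ) < η := hη
      have hη0 : (0:ℝ) ≤ η := by linarith
      have hn := down_norm ht hη0
      have h2 := hC (t - I * η) (down_mem ht hη0) (by simp) (by linarith)
      refine h2.trans ?_
      rw [Real.rpow_neg hη0, show ((2:ℝ)) = ((2:ℕ):ℝ) by norm_num, Real.rpow_natCast,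
        ← div_eq_mul_inv]
      have hp : 0 < η ^ 2 := by positivity
      have h3 : η ^ 2 ≤ ‖t - I * η‖ ^ 2 := pow_le_pow_left₀ hη0 hn 2
      calc C / ‖t - I * η‖ ^ 2 ≤ |C| / ‖t - I * η‖ ^ 2 :=
            div_le_div_of_nonneg_right (le_abs_self C) (by positivity)
        _ ≤ |C| / η ^ 2 := div_le_div_of_nonneg_left (abs_nonneg C) hp h3

theorem mem_Qd_of {x y : ℝ} (hx : 0 ≤ x) (hy : y ≤ 0) (h : 0 < x ∨ y < 0) :
    (x : ℂ) + y * I ∈ Qd := by
  have hre : ((x : ℂ) + y * I).re = x := by simp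
  have him : ((x : ℂ) + y * I).im = y := by simp
  refine ⟨by rw [hre]; exact hx, by rw [him]; exact hy, fun h0 => ?_⟩
  have e1 : ((x : ℂ) + y * I).re = 0 := by rw [h0]; rfl
  have e2 : ((x : ℂ) + y * I).im = 0 := by rw [h0]; rfl
  rw [hre] at e1
  rw [him] at e2
  rcases h with h | h <;> linarith

theorem sub_eq (x y η : ℝ) : (x : ℂ) + y * I - I * η = x + ((y - η : ℝ) : ℂ) * I := by
  push_cast
  ring

theorem vlim {f : ℂ → ℂ} (hf : VAdm f) {x y : ℝ} (hx : 0 ≤ x) (hy : y ≤ 0)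
    (h : 0 < x ∨ y < 0) :
    Tendsto (fun R : ℝ => I * ∫ s in (y - R)..y, f (x + s * I)) atTop
      (𝓝 (GV f (x + y * I))) := by
  have h1 := part1 hf (mem_Qd_of hx hy h)
  have h2 := intervalIntegral_tendsto_integral_Ioi (0:ℝ) h1 tendsto_id
  have h3 : ∀ R : ℝ, (∫ η in (0:ℝ)..R, f ((x : ℂ) + y * I - I * η)) =
      ∫ s in (y - R)..y, f (x + s * I) := by
    intro R
    have h4 := intervalIntegral.integral_comp_sub_left (a := 0) (b := R)
      (fun s : ℝ => f ((x : ℂ) + (s : ℂ) * I)) y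
    rw [sub_zero] at h4
    rw [← h4]
    exact intervalIntegral.integral_congr fun η _ => by rw [sub_eq]
  unfold GV
  refine Tendsto.const_mul I ?_
  refine h2.congr fun R => ?_
  exact h3 R

theorem part3 {f : ℂ → ℂ} (hf : VAdm f) (x y1 y2 : ℝ) (hx : 0 ≤ x) (h12 : y1 ≤ y2) (hy : y2 ≤ 0)
    (h : 0 < x ∨ y2 < 0) :
    GV f (x + y2 * I) - GV f (x + y1 * I) = I * ∫ y in y1..y2, f (x + y * I) := by
  have h' : 0 < x ∨ y1 < 0 := h.imp id fun h => by linarith
  have h2 := (vlim hf hx hy h).comp (tendsto_atTop_add_const_right atTop (y2 - y1) tendsto_id)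
  have h1 := vlim hf hx (h12.trans hy) h'
  have h3 := h2.sub h1
  refine tendsto_nhds_unique h3 ?_
  refine Tendsto.congr' ?_ tendsto_const_nhds
  filter_upwards [eventually_ge_atTop (0:ℝ)] with R hR
  simp only [Function.comp_apply, id]
  have e : y2 - (R + (y2 - y1)) = y1 - R := by ring
  have hint : ∀ a b : ℝ, a ≤ 0 → b ≤ 0 → (0 < x ∨ (a < 0 ∧ b < 0)) →
      IntervalIntegrable (fun s : ℝ => f ((x:ℂ) + s * I)) volume a b := by
    intro a b ha hb hab
    refine ContinuousOn.intervalIntegrable ?_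
    refine hf.1.comp (f := fun s : ℝ => (x : ℂ) + (s : ℂ) * I) ?_ fun s hs => ?_
    · exact (continuous_const.add (Complex.continuous_ofReal.mul continuous_const)).continuousOn
    · rcases Set.mem_uIcc.1 hs with hs | hs
      · exact mem_Qd_of hx (hs.2.trans hb) (hab.imp id fun h => lt_of_le_of_lt hs.2 h.2)
      · exact mem_Qd_of hx (hs.2.trans ha) (hab.imp id fun h => lt_of_le_of_lt hs.2 h.1)
  have hy1 : y1 ≤ 0 := h12.trans hy
  rw [e, ← mul_sub, ← intervalIntegral.integral_add_adjacent_intervals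
    (hint (y1 - R) y1 (by linarith) hy1 (h'.imp id fun h => ⟨by linarith, h⟩))
    (hint y1 y2 hy1 hy (h.imp id fun h => ⟨by linarith, h⟩)), add_sub_cancel_left]

theorem part2 {f : ℂ → ℂ} (hf : VAdm f) (x1 x2 y : ℝ) (hx : 0 ≤ x1) (h12 : x1 ≤ x2) (hy : y ≤ 0)
    (h : 0 < x1 ∨ y < 0) :
    GV f (x2 + y * I) - GV f (x1 + y * I) = ∫ x in x1..x2, f (x + y * I) := by
  have h' : 0 < x2 ∨ y < 0 := h.imp (fun h => lt_of_lt_of_le h h12) id
  have hl := (vlim hf (hx.trans h12) hy h').sub (vlim hf hx hy h)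
  -- Cauchy's theorem
  have hC : ∀ R : ℝ, 0 ≤ R → (I * ∫ s in (y - R)..y, f (x2 + s * I)) -
      (I * ∫ s in (y - R)..y, f (x1 + s * I)) =
      (∫ x in x1..x2, f (x + y * I)) - ∫ x in x1..x2, f (x + ((y - R : ℝ) : ℂ) * I) := by
    intro R hR
    have hz : ((x1 : ℂ) + ((y - R : ℝ) : ℂ) * I).re = x1 := by simp
    have hz' : ((x1 : ℂ) + ((y - R : ℝ) : ℂ) * I).im = y - R := by simp
    have hw : ((x2 : ℂ) + (y : ℂ) * I).re = x2 := by simp
    have hw' : ((x2 : ℂ) + (y : ℂ) * I).im = y := by simp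
    have hc := integral_boundary_rect_eq_zero_of_continuousOn_of_differentiableOn f
      ((x1 : ℂ) + ((y - R : ℝ) : ℂ) * I) ((x2 : ℂ) + (y : ℂ) * I) (by
        rw [hz, hz', hw, hw', uIcc_of_le h12, uIcc_of_le (by linarith)]
        refine hf.1.mono fun u hu => ?_
        rw [Complex.mem_reProdIm] at hu
        obtain ⟨hu1, hu2⟩ := hu
        refine ⟨hx.trans hu1.1, hu2.2.trans hy, fun h0 => ?_⟩
        rcases h with h | h
        · have : u.re = 0 := by rw [h0]; rfl
          linarith [hu1.1]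
        · have : u.im = 0 := by rw [h0]; rfl
          linarith [hu2.2]) (by
        rw [hz, hz', hw, hw', min_eq_left h12, max_eq_right h12, min_eq_left (by linarith),
          max_eq_right (by linarith)]
        refine hf.2.1.mono fun u hu => ?_
        rw [Complex.mem_reProdIm] at hu
        exact ⟨lt_of_le_of_lt hx hu.1.1, lt_of_lt_of_le hu.2.2 hy⟩)
    rw [hz, hz', hw, hw', smul_eq_mul, smul_eq_mul] at hc
    linear_combination hc
  -- the far side
  have hfar : Tendsto (fun R : ℝ => ∫ x in x1..x2, f (x + ((y - R : ℝ) : ℂ) * I)) atTop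
      (𝓝 0) := by
    obtain ⟨C, hCb⟩ := hf.2.2 x2
    have h1 : Tendsto (fun R : ℝ => |C| / R ^ 2 * |x2 - x1|) atTop (𝓝 0) := by
      have h2 : Tendsto (fun R : ℝ => |C| / R ^ 2) atTop (𝓝 0) :=
        tendsto_const_nhds.div_atTop (tendsto_pow_atTop two_ne_zero)
      simpa using h2.mul_const |x2 - x1|
    refine squeeze_zero_norm' ?_ h1
    filter_upwards [eventually_ge_atTop (1:ℝ)] with R hR
    refine intervalIntegral.norm_integral_le_of_norm_le_const fun x hx' => ?_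
    rw [uIoc_of_le h12] at hx'
    have hx0 : 0 ≤ x := hx.trans hx'.1.le
    have hm : (x : ℂ) + ((y - R : ℝ) : ℂ) * I ∈ Qd :=
      mem_Qd_of hx0 (by linarith) (Or.inr (by linarith))
    have him : ((x : ℂ) + ((y - R : ℝ) : ℂ) * I).im = y - R := by simp
    have hre : ((x : ℂ) + ((y - R : ℝ) : ℂ) * I).re = x := by simp
    have hn : R ≤ ‖(x : ℂ) + ((y - R : ℝ) : ℂ) * I‖ := by
      have h3 := Complex.abs_im_le_norm ((x : ℂ) + ((y - R : ℝ) : ℂ) * I)
      rw [him, abs_of_nonpos (by linarith)] at h3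
      linarith
    have h4 := hCb _ hm (by rw [hre]; exact hx'.2) (by linarith)
    refine h4.trans ?_
    have hp : (0:ℝ) < R ^ 2 := by positivity
    have h5 : R ^ 2 ≤ ‖(x : ℂ) + ((y - R : ℝ) : ℂ) * I‖ ^ 2 :=
      pow_le_pow_left₀ (by linarith) hn 2
    calc C / ‖(x : ℂ) + ((y - R : ℝ) : ℂ) * I‖ ^ 2
        ≤ |C| / ‖(x : ℂ) + ((y - R : ℝ) : ℂ) * I‖ ^ 2 :=
          div_le_div_of_nonneg_right (le_abs_self C) (by positivity)
      _ ≤ |C| / R ^ 2 := div_le_div_of_nonneg_left (abs_nonneg C) hp h5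
  have hl' : Tendsto (fun R : ℝ => (∫ x in x1..x2, f (x + y * I)) -
      ∫ x in x1..x2, f (x + ((y - R : ℝ) : ℂ) * I)) atTop
      (𝓝 ((∫ x in x1..x2, f (x + y * I)) - 0)) := tendsto_const_nhds.sub hfar
  rw [sub_zero] at hl'
  refine tendsto_nhds_unique hl (hl'.congr' ?_)
  filter_upwards [eventually_ge_atTop (0:ℝ)] with R hR
  exact (hC R hR).symm

theorem thm : EC237.PI.G_VPA := fun _ hf =>
  ⟨fun _ ht => part1 hf ht, fun x1 x2 y hx h12 hy h => part2 hf x1 x2 y hx h12 hy h,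
    fun x y1 y2 hx h12 hy h => part3 hf x y1 y2 hx h12 hy h⟩

end Pool.Agent.Helper22.EC.I_VPA
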